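import Mathlib

/-!
# Translative coverings of the unit square by rectangles with sides at most `1`

Rectangle number `i` has width `a i` and height `b i`.  `Cv a b s S` says that translates of the
rectangles with index in the finite set `s` cover the set `S` of the plane.
-/

set_option autoImplicit false

namespace Pool.Agent.TH151.RectCover

open Finset

/-- The rectangles `[0, a i] × [0, b i]`, `i ∈ s`, have translates covering `S`. -/
def Cv {ι : Type*} (a b : ι → ℝ) (s : Finset ι) (S : Set (ℝ × ℝ)) : Prop :=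
  ∃ v : ι → ℝ × ℝ, ∀ p ∈ S, ∃ i ∈ s,
    (v i).1 ≤ p.1 ∧ p.1 ≤ (v i).1 + a i ∧ (v i).2 ≤ p.2 ∧ p.2 ≤ (v i).2 + b i

/-- The box `[x₀, x₁] × [y₀, y₁]`. -/
def Bx (x₀ x₁ y₀ y₁ : ℝ) : Set (ℝ × ℝ) :=
  {p | x₀ ≤ p.1 ∧ p.1 ≤ x₁ ∧ y₀ ≤ p.2 ∧ p.2 ≤ y₁}

section

variable {ι : Type*} {a b : ι → ℝ}

theorem Cv.mono {s t : Finset ι} {S T : Set (ℝ × ℝ)} (h : Cv a b s S) (hst : s ⊆ t)
    (hTS : T ⊆ S) : Cv a b t T := by
  obtain ⟨v, hv⟩ := h
  refine ⟨v, fun p hp => ?_⟩
  obtain ⟨i, hi, h⟩ := hv p (hTS hp)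
  exact ⟨i, hst hi, h⟩

theorem Cv.union [DecidableEq ι] {s t : Finset ι} {S T U : Set (ℝ × ℝ)} (hs : Cv a b s S)
    (ht : Cv a b t T) (hd : Disjoint s t) (x y : ℝ)
    (hU : ∀ p ∈ U, p ∈ S ∨ (p.1 - x, p.2 - y) ∈ T) : Cv a b (s ∪ t) U := by
  obtain ⟨v, hv⟩ := hs
  obtain ⟨w, hw⟩ := ht
  refine ⟨fun i => if i ∈ s then v i else ((w i).1 + x, (w i).2 + y), fun p hp => ?_⟩
  rcases hU p hp with h | h
  · obtain ⟨i, hi, h⟩ := hv p h
    refine ⟨i, by simp [hi], ?_⟩
    simpa [hi] using h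
  · obtain ⟨i, hi, h1, h2, h3, h4⟩ := hw _ h
    have hi' : i ∉ s := fun h' => (Finset.disjoint_left.1 hd h') hi
    refine ⟨i, by simp [hi], ?_⟩
    simp only [hi', if_false]
    simp only at h1 h2 h3 h4
    exact ⟨by linarith, by linarith, by linarith, by linarith⟩

/-- One row. -/
theorem row [DecidableEq ι] (y : ℝ) (s : Finset ι) :
    ∀ w : ℝ, s.Nonempty → w ≤ ∑ i ∈ s, a i → (∀ i ∈ s, y ≤ b i) →
      Cv a b s (Bx 0 w 0 y) := by
  induction s using Finset.induction_on with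
  | empty => intro w h; exact absurd h (by simp)
  | insert i t hit ih =>
    intro w _ hw hy
    have single : Cv a b {i} (Bx 0 (a i) 0 y) := by
      refine ⟨fun _ => 0, fun p hp => ⟨i, by simp, ?_⟩⟩
      obtain ⟨h1, h2, h3, h4⟩ := hp
      have := hy i (by simp)
      simp only [Prod.fst_zero, Prod.snd_zero, zero_add]
      exact ⟨h1, h2, h3, by linarith⟩
    by_cases hwi : w ≤ a i
    · exact single.mono (by simp) (fun p hp => ⟨hp.1, hp.2.1.trans hwi, hp.2.2⟩)
    · push Not at hwi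
      rw [Finset.sum_insert hit] at hw
      have ht : t.Nonempty := by
        rw [Finset.nonempty_iff_ne_empty]
        rintro rfl
        simp at hw
        linarith
      have h2 := ih (w - a i) ht (by linarith) (fun j hj => hy j (by simp [hj]))
      have h3 := single.union h2 (by simpa using hit) (a i) 0 (U := Bx 0 w 0 y) (by
        rintro ⟨p, q⟩ ⟨h1, h2, h3, h4⟩
        simp only at h1 h2 h3 h4
        by_cases hp : p ≤ a i
        · exact Or.inl ⟨h1, hp, h3, h4⟩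
        · push Not at hp
          refine Or.inr ⟨?_, ?_, ?_, ?_⟩ <;> simp only <;> linarith)
      refine h3.mono ?_ (fun p hp => hp)
      intro j
      simp

/-- One column. -/
theorem column [DecidableEq ι] (x : ℝ) (s : Finset ι) :
    ∀ h : ℝ, s.Nonempty → h ≤ ∑ i ∈ s, b i → (∀ i ∈ s, x ≤ a i) →
      Cv a b s (Bx 0 x 0 h) := by
  induction s using Finset.induction_on with
  | empty => intro w h; exact absurd h (by simp)
  | insert i t hit ih =>
    intro w _ hw hy
    have single : Cv a b {i} (Bx 0 x 0 (b i)) := by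
      refine ⟨fun _ => 0, fun p hp => ⟨i, by simp, ?_⟩⟩
      obtain ⟨h1, h2, h3, h4⟩ := hp
      have := hy i (by simp)
      simp only [Prod.fst_zero, Prod.snd_zero, zero_add]
      exact ⟨h1, by linarith, h3, h4⟩
    by_cases hwi : w ≤ b i
    · exact single.mono (by simp) (fun p hp => ⟨hp.1, hp.2.1, hp.2.2.1, hp.2.2.2.trans hwi⟩)
    · push Not at hwi
      rw [Finset.sum_insert hit] at hw
      have ht : t.Nonempty := by
        rw [Finset.nonempty_iff_ne_empty]
        rintro rfl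
        simp at hw
        linarith
      have h2 := ih (w - b i) ht (by linarith) (fun j hj => hy j (by simp [hj]))
      have h3 := single.union h2 (by simpa using hit) 0 (b i) (U := Bx 0 x 0 w) (by
        rintro ⟨p, q⟩ ⟨h1, h2, h3, h4⟩
        simp only at h1 h2 h3 h4
        by_cases hp : q ≤ b i
        · exact Or.inl ⟨h1, h2, h3, hp⟩
        · push Not at hp
          refine Or.inr ⟨?_, ?_, ?_, ?_⟩ <;> simp only <;> linarith)
      refine h3.mono ?_ (fun p hp => hp)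
      intro j
      simp

/-- The first row in the order of decreasing heights: a set `P` of the highest rectangles, with
total width at least `1`, and `r ∈ P` a lowest one of them, without which the width is less than
`1`. -/
theorem first_row [DecidableEq ι] (s : Finset ι) (hs : 1 ≤ ∑ i ∈ s, a i) :
    ∃ P ⊆ s, ∃ r ∈ P, 1 ≤ ∑ i ∈ P, a i ∧ (∀ i ∈ P, b r ≤ b i) ∧ (∀ i ∈ s \ P, b i ≤ b r) ∧
      ∑ i ∈ P.erase r, a i < 1 := by
  classical
  set 𝒞 : Finset (Finset ι) := s.powerset.filter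
    (fun P => 1 ≤ ∑ i ∈ P, a i ∧ ∀ i ∈ P, ∀ j ∈ s \ P, b j ≤ b i) with h𝒞
  have hne : 𝒞.Nonempty := ⟨s, by
    simp only [h𝒞, Finset.mem_filter, Finset.mem_powerset]
    exact ⟨Finset.Subset.refl s, hs, fun i _ j hj => by simp at hj⟩⟩
  obtain ⟨P, hP, hmin⟩ := Finset.exists_min_image 𝒞 (fun P => P.card) hne
  simp only [h𝒞, Finset.mem_filter, Finset.mem_powerset] at hP
  obtain ⟨hPs, hP1, hPu⟩ := hP
  have hPne : P.Nonempty := by
    rw [Finset.nonempty_iff_ne_empty]
    rintro rfl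
    simp at hP1
    linarith
  obtain ⟨r, hr, hrm⟩ := Finset.exists_min_image P b hPne
  refine ⟨P, hPs, r, hr, hP1, hrm, fun i hi => hPu r hr i hi, ?_⟩
  by_contra hcon
  push Not at hcon
  have hmem : P.erase r ∈ 𝒞 := by
    simp only [h𝒞, Finset.mem_filter, Finset.mem_powerset]
    refine ⟨(Finset.erase_subset _ _).trans hPs, hcon, fun i hi j hj => ?_⟩
    have hiP := Finset.mem_of_mem_erase hi
    simp only [Finset.mem_sdiff, Finset.mem_erase, not_and] at hj
    by_cases hjr : j = r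
    · subst hjr; exact hrm i hiP
    · exact hPu i hiP j (by simp only [Finset.mem_sdiff]; exact ⟨hj.1, hj.2 hjr⟩)
  have h1 := hmin _ hmem
  have h2 := Finset.card_erase_lt_of_mem hr
  omega

/-- Finite shelf algorithm. -/
theorem shelf [DecidableEq ι] (ha0 : ∀ i, 0 < a i) (ha1 : ∀ i, a i ≤ 1) (hb0 : ∀ i, 0 < b i) :
    ∀ (n : ℕ) (s : Finset ι), s.card = n → ∀ x h : ℝ, 0 < x → 0 ≤ h → (∀ i ∈ s, b i ≤ x) →
      x + 2 * h ≤ ∑ i ∈ s, a i * b i → Cv a b s (Bx 0 1 0 h) := by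
  intro n
  induction n using Nat.strong_induction_on with
  | _ n ih =>
    intro s hs x h hx hh hbx hA
    have hW : 1 ≤ ∑ i ∈ s, a i := by
      by_contra hcon
      push Not at hcon
      have h1 : ∑ i ∈ s, a i * b i ≤ ∑ i ∈ s, a i * x :=
        Finset.sum_le_sum fun i hi => mul_le_mul_of_nonneg_left (hbx i hi) (ha0 i).le
      rw [← Finset.sum_mul] at h1
      nlinarith
    obtain ⟨P, hPs, r, hrP, hP1, hPr, hsP, hlt⟩ := first_row (b := b) s hW
    have hPne : P.Nonempty := ⟨r, hrP⟩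
    have hrow : Cv a b P (Bx 0 1 0 (b r)) := row (b r) P 1 hPne hP1 hPr
    by_cases hhr : h ≤ b r
    · exact hrow.mono hPs (fun p hp => ⟨hp.1, hp.2.1, hp.2.2.1, hp.2.2.2.trans hhr⟩)
    · push Not at hhr
      have hcard : (s \ P).card < n := by
        rw [← hs]
        exact Finset.card_lt_card (Finset.sdiff_ssubset hPs hPne)
      have hsum : ∑ i ∈ s \ P, a i * b i + ∑ i ∈ P, a i * b i = ∑ i ∈ s, a i * b i :=
        Finset.sum_sdiff hPs
      have hPsum : ∑ i ∈ P, a i * b i ≤ x + b r := by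
        rw [← Finset.sum_erase_add P _ hrP]
        have h1 : ∑ i ∈ P.erase r, a i * b i ≤ ∑ i ∈ P.erase r, a i * x :=
          Finset.sum_le_sum fun i hi => mul_le_mul_of_nonneg_left
            (hbx i (hPs (Finset.mem_of_mem_erase hi))) (ha0 i).le
        rw [← Finset.sum_mul] at h1
        have h2 := ha1 r
        have h3 := hb0 r
        nlinarith
      have h4 := ih _ hcard (s \ P) rfl (b r) (h - b r) (hb0 r) (by linarith) hsP (by linarith)
      have h5 := hrow.union h4 Finset.disjoint_sdiff 0 (b r) (U := Bx 0 1 0 h) (by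
        rintro ⟨p, q⟩ ⟨h1, h2, h3, h4⟩
        simp only at h1 h2 h3 h4
        by_cases hp : q ≤ b r
        · exact Or.inl ⟨h1, h2, h3, hp⟩
        · push Not at hp
          refine Or.inr ⟨?_, ?_, ?_, ?_⟩ <;> simp only <;> linarith)
      rwa [Finset.union_sdiff_of_subset hPs] at h5

/-- If a finite subfamily does not cover, then a part of it of total width less than `1` has area
at least `total - 2`. -/
theorem refined [DecidableEq ι] (ha0 : ∀ i, 0 < a i) (ha1 : ∀ i, a i ≤ 1) (hb0 : ∀ i, 0 < b i)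
    (hb1 : ∀ i, b i ≤ 1) (s : Finset ι) (hA : 1 ≤ ∑ i ∈ s, a i * b i)
    (hn : ¬ Cv a b s (Bx 0 1 0 1)) :
    ∃ P : Finset ι, ∑ i ∈ P, a i < 1 ∧ ∑ i ∈ s, a i * b i ≤ 2 + ∑ i ∈ P, a i * b i := by
  have hW : 1 ≤ ∑ i ∈ s, a i := by
    refine hA.trans (Finset.sum_le_sum fun i _ => ?_)
    nlinarith [ha0 i, hb1 i]
  obtain ⟨P, hPs, r, hrP, hP1, hPr, hsP, hlt⟩ := first_row (b := b) s hW
  refine ⟨P.erase r, hlt, ?_⟩
  have hPne : P.Nonempty := ⟨r, hrP⟩
  have hrow : Cv a b P (Bx 0 1 0 (b r)) := row (b r) P 1 hPne hP1 hPr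
  by_contra hcon
  push Not at hcon
  apply hn
  have hsum : ∑ i ∈ s \ P, a i * b i + ∑ i ∈ P, a i * b i = ∑ i ∈ s, a i * b i :=
    Finset.sum_sdiff hPs
  have hPsum : ∑ i ∈ P, a i * b i ≤ ∑ i ∈ P.erase r, a i * b i + b r := by
    rw [← Finset.sum_erase_add P _ hrP]
    nlinarith [ha1 r, hb0 r]
  have h4 := shelf ha0 ha1 hb0 _ (s \ P) rfl (b r) (1 - b r) (hb0 r) (by linarith [hb1 r]) hsP
    (by linarith)
  have h5 := hrow.union h4 Finset.disjoint_sdiff 0 (b r) (U := Bx 0 1 0 1) (by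
    rintro ⟨p, q⟩ ⟨h1, h2, h3, h4⟩
    simp only at h1 h2 h3 h4
    by_cases hp : q ≤ b r
    · exact Or.inl ⟨h1, h2, h3, hp⟩
    · push Not at hp
      refine Or.inr ⟨?_, ?_, ?_, ?_⟩ <;> simp only <;> linarith)
  rwa [Finset.union_sdiff_of_subset hPs] at h5

/-- If the rectangles of height exactly `1` have total width less than `1`, there is a uniform gap
for the area of finite sets of total width less than `1`. -/
theorem gap [DecidableEq ι] (ha0 : ∀ i, 0 < a i) (hb0 : ∀ i, 0 < b i)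
    (hb1 : ∀ i, b i ≤ 1) (hsum : Summable fun i => a i * b i) (g : ℝ) (hg : g < 1)
    (hg1 : ∀ s : Finset ι, (∀ i ∈ s, b i = 1) → ∑ i ∈ s, a i ≤ g) :
    ∃ c : ℝ, 0 < c ∧ ∀ P : Finset ι, ∑ i ∈ P, a i < 1 → ∑ i ∈ P, a i * b i ≤ 1 - c := by
  set ρ := 1 - g with hρ
  have hρ0 : 0 < ρ := by linarith
  -- tail
  obtain ⟨T, hT⟩ := (summable_iff_vanishing_norm.1 hsum) (ρ / 4) (by linarith)
  -- gap of the heights in T
  obtain ⟨δ, hδ0, hδ1, hδ⟩ : ∃ δ : ℝ, 0 < δ ∧ δ ≤ 1 / 2 ∧ ∀ i ∈ T, b i ≠ 1 → b i < 1 - δ := by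
    by_cases hne : (T.filter fun i => b i ≠ 1).Nonempty
    · obtain ⟨i, hi, him⟩ := Finset.exists_max_image _ b hne
      simp only [Finset.mem_filter] at hi him
      have h1 : b i < 1 := lt_of_le_of_ne (hb1 i) hi.2
      refine ⟨(1 - b i) / 2, by linarith, by linarith [hb0 i], fun j hj hj1 => ?_⟩
      have := him j ⟨hj, hj1⟩
      linarith
    · refine ⟨1 / 2, by norm_num, le_refl _, fun j hj hj1 => ?_⟩
      exact absurd ⟨j, by simp [hj, hj1]⟩ hne
  refine ⟨δ * (ρ / 2), by positivity, fun P hP => ?_⟩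
  set H := P.filter fun i => 1 - δ ≤ b i with hH
  set L := P.filter fun i => ¬ 1 - δ ≤ b i with hL
  have hsplit : ∑ i ∈ H, a i * b i + ∑ i ∈ L, a i * b i = ∑ i ∈ P, a i * b i :=
    Finset.sum_filter_add_sum_filter_not P _ _
  have hsplit2 : ∑ i ∈ H, a i + ∑ i ∈ L, a i = ∑ i ∈ P, a i :=
    Finset.sum_filter_add_sum_filter_not P _ _
  have hH1 : ∑ i ∈ H, a i * b i ≤ ∑ i ∈ H, a i :=
    Finset.sum_le_sum fun i _ => by nlinarith [ha0 i, hb1 i]
  have hL1 : ∑ i ∈ L, a i * b i ≤ (1 - δ) * ∑ i ∈ L, a i := by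
    rw [Finset.mul_sum]
    refine Finset.sum_le_sum fun i hi => ?_
    simp only [hL, Finset.mem_filter, not_le] at hi
    nlinarith [ha0 i]
  -- the width of H
  have hHw : ∑ i ∈ H, a i ≤ g + ρ / 2 := by
    have h1 : ∑ i ∈ H, a i = ∑ i ∈ H.filter (fun i => b i = 1), a i
        + ∑ i ∈ H.filter (fun i => ¬ b i = 1), a i :=
      (Finset.sum_filter_add_sum_filter_not H _ _).symm
    have h2 : ∑ i ∈ H.filter (fun i => b i = 1), a i ≤ g :=
      hg1 _ (fun i hi => (Finset.mem_filter.1 hi).2)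
    have hdis : Disjoint (H.filter (fun i => ¬ b i = 1)) T := by
      rw [Finset.disjoint_left]
      intro i hi hiT
      simp only [hH, Finset.mem_filter] at hi
      have := hδ i hiT hi.2
      linarith [hi.1.2]
    have h3 := hT _ hdis
    rw [Real.norm_eq_abs] at h3
    have h4 := (abs_lt.1 h3).2
    have h5 : ∑ i ∈ H.filter (fun i => ¬ b i = 1), a i
        ≤ 2 * ∑ i ∈ H.filter (fun i => ¬ b i = 1), a i * b i := by
      rw [Finset.mul_sum]
      refine Finset.sum_le_sum fun i hi => ?_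
      simp only [hH, Finset.mem_filter] at hi
      nlinarith [ha0 i, hi.1.2]
    linarith
  nlinarith

/-- Any family of rectangles with sides at most `1` and total area `A ≥ 3` contains a finite
subfamily which covers the unit square by translations. -/
theorem main (ha0 : ∀ i, 0 < a i) (ha1 : ∀ i, a i ≤ 1) (hb0 : ∀ i, 0 < b i)
    (hb1 : ∀ i, b i ≤ 1) (A : ℝ) (hA : 3 ≤ A) (hsum : HasSum (fun i => a i * b i) A) :
    ∃ s : Finset ι, Cv a b s (Bx 0 1 0 1) := by
  classical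
  by_contra hcon
  push Not at hcon
  have hlt3 : ∀ s : Finset ι, ∑ i ∈ s, a i * b i < 3 := by
    intro s
    by_contra h
    push Not at h
    exact hcon s (shelf ha0 ha1 hb0 _ s rfl 1 1 one_pos zero_le_one (fun i _ => hb1 i)
      (by linarith))
  -- finite subfamilies of area near A
  have happ : ∀ ε : ℝ, 0 < ε → ∃ s : Finset ι, 3 - ε < ∑ i ∈ s, a i * b i := by
    intro ε hε
    have h1 : ∀ᶠ s : Finset ι in Filter.atTop, 3 - ε < ∑ i ∈ s, a i * b i :=
      hsum.eventually_const_lt (by linarith)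
    exact h1.exists
  by_cases hfull : ∃ s : Finset ι, (∀ i ∈ s, b i = 1) ∧ 1 ≤ ∑ i ∈ s, a i
  · obtain ⟨s, hs, hs1⟩ := hfull
    refine hcon s (row 1 s 1 ?_ hs1 (fun i hi => (hs i hi).ge))
    rw [Finset.nonempty_iff_ne_empty]
    rintro rfl
    simp at hs1
    linarith
  push Not at hfull
  by_cases hg : ∃ g : ℝ, g < 1 ∧ ∀ s : Finset ι, (∀ i ∈ s, b i = 1) → ∑ i ∈ s, a i ≤ g
  · obtain ⟨g, hg1, hg⟩ := hg
    obtain ⟨c, hc, hgap⟩ := gap ha0 hb0 hb1 hsum.summable g hg1 hg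
    obtain ⟨s, hs⟩ := happ (min c 1) (lt_min hc one_pos)
    have hm1 : min c 1 ≤ c := min_le_left _ _
    have hm2 : min c 1 ≤ 1 := min_le_right _ _
    obtain ⟨P, hP1, hP2⟩ := refined ha0 ha1 hb0 hb1 s (by linarith) (hcon s)
    have := hgap P hP1
    linarith
  push Not at hg
  -- the rectangles of height less than one have area 2
  obtain ⟨T, hTb, hT1⟩ : ∃ T : Finset ι, (∀ i ∈ T, b i ≠ 1) ∧ 1 ≤ ∑ i ∈ T, a i * b i := by
    obtain ⟨s, hs⟩ := happ 1 one_pos
    refine ⟨s.filter fun i => ¬ b i = 1, fun i hi => (Finset.mem_filter.1 hi).2, ?_⟩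
    have h1 : ∑ i ∈ s.filter (fun i => b i = 1), a i * b i
        + ∑ i ∈ s.filter (fun i => ¬ b i = 1), a i * b i = ∑ i ∈ s, a i * b i :=
      Finset.sum_filter_add_sum_filter_not s _ _
    have h2 : ∑ i ∈ s.filter (fun i => b i = 1), a i * b i
        ≤ ∑ i ∈ s.filter (fun i => b i = 1), a i :=
      Finset.sum_le_sum fun i _ => by nlinarith [ha0 i, hb1 i]
    have h3 := hfull (s.filter fun i => b i = 1) (fun i hi => (Finset.mem_filter.1 hi).2)
    linarith
  have hTne : T.Nonempty := by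
    rw [Finset.nonempty_iff_ne_empty]
    rintro rfl
    simp at hT1
    linarith
  obtain ⟨t, ht, htm⟩ := Finset.exists_min_image T a hTne
  have hTh : 1 ≤ ∑ i ∈ T, b i :=
    hT1.trans (Finset.sum_le_sum fun i _ => by nlinarith [ha1 i, hb0 i])
  have hcol : Cv a b T (Bx 0 (a t) 0 1) := column (a t) T 1 hTne hTh htm
  by_cases ht1 : a t < 1
  · obtain ⟨s, hs, hs1⟩ := hg (1 - a t) (by linarith [ha0 t])
    have hsne : s.Nonempty := by
      rw [Finset.nonempty_iff_ne_empty]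
      rintro rfl
      simp at hs1
      linarith
    have hrow : Cv a b s (Bx 0 (1 - a t) 0 1) :=
      row 1 s (1 - a t) hsne hs1.le (fun i hi => (hs i hi).ge)
    have hd : Disjoint T s := by
      rw [Finset.disjoint_left]
      intro i hi his
      exact hTb i hi (hs i his)
    refine hcon _ (hcol.union hrow hd (a t) 0 ?_)
    rintro ⟨p, q⟩ ⟨h1, h2, h3, h4⟩
    simp only at h1 h2 h3 h4
    by_cases hp : p ≤ a t
    · exact Or.inl ⟨h1, hp, h3, h4⟩
    · push Not at hp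
      refine Or.inr ⟨?_, ?_, ?_, ?_⟩ <;> simp only <;> linarith
  · push Not at ht1
    exact hcon T (hcol.mono (Finset.Subset.refl _)
      (fun p hp => ⟨hp.1, hp.2.1.trans ht1, hp.2.2⟩))

end

end Pool.Agent.TH151.RectCover
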